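import Mathlib

/-!
Generic enumeration theorem for families of placements on five labels up to relabelling.
The tables enter as parameters together with the (Boolean checkable) facts about them.
-/

namespace Pool.Agent.TH751.T4

/-- all numbers below `n` satisfy `f` -/
def allB (f : ℕ → Bool) : ℕ → Bool
  | 0 => true
  | n + 1 => f n && allB f n

theorem allB_spec {f : ℕ → Bool} {n : ℕ} (h : allB f n = true) : ∀ m < n, f m = true := by
  induction n with
  | zero => intro m hm; omega
  | succ n ih =>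
    simp only [allB, Bool.and_eq_true] at h
    intro m hm
    rcases Nat.lt_succ_iff_lt_or_eq.1 hm with h1 | h1
    · exact ih h.2 m h1
    · subst h1; exact h.1

/-- digit `j` of a code in base 8 (read modulo 5) -/
def dg (c j : ℕ) : ℕ := ((c >>> (3 * j)) % 8) % 5

theorem dg_lt (c j : ℕ) : dg c j < 5 := Nat.mod_lt _ (by norm_num)

/-- the function on labels given by a code -/
def fn (c : ℕ) (j : Fin 5) : Fin 5 := ⟨dg c j, dg_lt c j⟩

/-- digit `j` of a list of labels -/
def gl (l : List ℕ) (j : ℕ) : ℕ := l.getD j 0 % 5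

theorem gl_lt (l : List ℕ) (j : ℕ) : gl l j < 5 := Nat.mod_lt _ (by norm_num)

/-- the function on labels given by a list of labels -/
def fnl (l : List ℕ) (j : Fin 5) : Fin 5 := Fin.ofNat 5 (l.getD j 0)

theorem fnl_val (l : List ℕ) (j : Fin 5) : (fnl l j : ℕ) = gl l j := rfl

/-- on the labels below `n` : `g1 j = g2 (a j)` -/
def labB (n : ℕ) (g1 g2 : ℕ → ℕ) (a : List ℕ) : Bool := allB (fun j => g1 j == g2 (gl a j)) n

/-- the two placements agree up to an automorphism from the list -/
def eqvB (n : ℕ) (au : List (List ℕ)) (g1 g2 : ℕ → ℕ) : Bool := au.any fun a => labB n g1 g2 a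

/-- the automorphism list contains inverses -/
def autB (n : ℕ) (au : List (List ℕ)) : Bool :=
  au.all fun a => au.any fun b => allB (fun j => decide (gl b j < n) && (gl a (gl b j) == j)) n

/-- positions are pairwise different -/
def injB (ps : ℕ → ℕ) (n : ℕ) : Bool := allB (fun m => allB (fun m' => !(ps m == ps m')) m) n

theorem injB_spec {ps : ℕ → ℕ} {n : ℕ} (h : injB ps n = true) {m m' : ℕ} (hm : m < n)
    (hm' : m' < n) (he : ps m = ps m') : m = m' := by
  rcases lt_trichotomy m m' with h1 | h1 | h1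
  · have := allB_spec (allB_spec h m' hm') m h1
    simp [he] at this
  · exact h1
  · have := allB_spec (allB_spec h m hm) m' h1
    simp [he] at this

/-- octal digit -/
def oct (x m : ℕ) : ℕ := (x >>> (3 * m)) % 8

/-- the matching check of a transition -/
def matB (act : ℕ → ℕ) (F T : List ℕ) (x : ℕ) : Bool :=
  allB (fun m => F.getD (oct x m) 9999 == act (T.getD m 9999)) T.length && injB (oct x) T.length

/-- a transition certificate: `e % 2 = 1` : bad pattern, else new representative -/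
def trB (rep pat : ℕ → List ℕ) (nR nB : ℕ) (act : ℕ → ℕ → ℕ) (F : List ℕ) (e : ℕ) : Bool :=
  let t := (e >>> 1) % 1024
  let p := (e >>> 11) % 128
  let x := e >>> 18
  decide (p < 120) &&
  (if e % 2 = 1 then decide (t < nB) && matB (act p) F (pat t) x
  else decide (t < nR) && ((rep t).length == F.length) && matB (act p) F (rep t) x)

section sem

variable {W ι : Type*} {nr : ℕ → ℕ} {aut : ℕ → List (List ℕ)} {P : ℕ → (Fin 5 → W) → ι → Prop}

theorem sem_iff
    (hloc : ∀ k ψ ψ' i, (∀ j : Fin 5, (j : ℕ) < nr k → ψ j = ψ' j) → P k ψ i → P k ψ' i)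
    (haut : ∀ k < 7, ∀ a ∈ aut k, ∀ ψ i, P k ψ i → P k (ψ ∘ fnl a) i)
    (hinv : ∀ k < 7, autB (nr k) (aut k) = true) {k : ℕ} (hk : k < 7)
    {g1 g2 : Fin 5 → Fin 5} {n1 n2 : ℕ → ℕ} (h1 : ∀ j : Fin 5, (g1 j : ℕ) = n1 j)
    (h2 : ∀ j : Fin 5, (g2 j : ℕ) = n2 j) (hE : eqvB (nr k) (aut k) n1 n2 = true)
    (φ : Fin 5 → W) (i : ι) : P k (φ ∘ g1) i ↔ P k (φ ∘ g2) i := by
  obtain ⟨a, ha, hlab⟩ := List.any_eq_true.1 hE
  have hlab' := allB_spec hlab
  have e1 : ∀ j : Fin 5, (j : ℕ) < nr k → g1 j = g2 (fnl a j) := by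
    intro j hj
    apply Fin.ext
    rw [h1, h2, fnl_val]
    have := hlab' j hj
    simpa using this
  constructor
  · intro h
    obtain ⟨b, hb, hb'⟩ := List.any_eq_true.1 (List.all_eq_true.1 (hinv k hk) a ha)
    have hb'' := allB_spec hb'
    have h3 := haut k hk b hb (φ ∘ g1) i h
    refine hloc k _ _ i ?_ h3
    intro j hj
    have h4 := hb'' j hj
    simp only [Bool.and_eq_true, decide_eq_true_eq, beq_iff_eq] at h4
    have h5 : ((fnl b j : Fin 5) : ℕ) < nr k := by rw [fnl_val]; exact h4.1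
    simp only [Function.comp_apply]
    rw [e1 _ h5]
    congr 2
    apply Fin.ext
    rw [fnl_val, fnl_val]
    exact h4.2
  · intro h
    have h3 := haut k hk a ha (φ ∘ g2) i h
    refine hloc k _ _ i ?_ h3
    intro j hj
    simp only [Function.comp_apply]
    rw [e1 j hj]

end sem

/-- The family of placements `l` (as a list of pairs kind / labels) is the family of
placement numbers `q` -/
def famB (nr : ℕ → ℕ) (aut : ℕ → List (List ℕ)) (plk plg : ℕ → ℕ) (nQ : ℕ) :
    List (ℕ × List ℕ) → List ℕ → Bool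
  | [], [] => true
  | (k, g) :: l, q :: l' =>
      (decide (q < nQ) && (plk q == k) && eqvB (nr k) (aut k) (gl g) (dg (plg q))) &&
        famB nr aut plk plg nQ l l'
  | _, _ => false

theorem famB_spec {nr : ℕ → ℕ} {aut : ℕ → List (List ℕ)} {plk plg : ℕ → ℕ} {nQ : ℕ} :
    ∀ {l : List (ℕ × List ℕ)} {l' : List ℕ}, famB nr aut plk plg nQ l l' = true →
      l.length = l'.length ∧ ∀ m < l.length, l'.getD m 9999 < nQ ∧
        plk (l'.getD m 9999) = (l.getD m (0, [])).1 ∧
        eqvB (nr (l.getD m (0, [])).1) (aut (l.getD m (0, [])).1) (gl (l.getD m (0, [])).2)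
          (dg (plg (l'.getD m 9999))) = true
  | [], [], _ => by simp
  | (k, g) :: l, q :: l', h => by
      simp only [famB, Bool.and_eq_true, decide_eq_true_eq, beq_iff_eq] at h
      obtain ⟨h1, h2⟩ := famB_spec h.2
      refine ⟨by simp [h1], ?_⟩
      intro m hm
      rcases m with _ | m
      · simpa using ⟨h.1.1.1, h.1.1.2, h.1.2⟩
      · have := h2 m (by simpa using hm)
        simpa using this
  | [], _ :: _, h => by simp [famB] at h
  | (_, _) :: _, [], h => by simp [famB] at h

/-- The facts about the tables. -/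
structure Tab (nr : ℕ → ℕ) (aut : ℕ → List (List ℕ)) (rep pat : ℕ → List (ℕ × List ℕ))
    (nR nB nQ : ℕ) (plk plg : ℕ → ℕ) (pc : ℕ → ℕ) (act : ℕ → ℕ → ℕ) (base : ℕ → ℕ)
    (repI patI : ℕ → List ℕ) : Prop where
  hnr : ∀ k < 7, nr k ≤ 5
  hinv : ∀ k < 7, autB (nr k) (aut k) = true
  hk : ∀ q < nQ, plk q < 7
  hQ : nQ ≤ 9999
  hact : ∀ p < 120, ∀ q < nQ, act p q < nQ ∧ plk (act p q) = plk q ∧
    eqvB (nr (plk q)) (aut (plk q)) (fun j => dg (pc p) (dg (plg q) j)) (dg (plg (act p q))) = true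
  hbase : ∀ k < 7, base k < nQ ∧ plk (base k) = k ∧ ∀ j < 5, dg (plg (base k)) j = j
  hperm : ∀ p < 120, ∀ i < 5, ∀ j < 5, dg (pc p) i = dg (pc p) j → i = j
  hsurj : ∀ a < 5, ∀ b < 5, ∀ c < 5, ∀ d < 5, ∀ e < 5, a ≠ b → a ≠ c → a ≠ d → a ≠ e → b ≠ c →
    b ≠ d → b ≠ e → c ≠ d → c ≠ e → d ≠ e → ∃ p < 120, dg (pc p) 0 = a ∧ dg (pc p) 1 = b ∧
      dg (pc p) 2 = c ∧ dg (pc p) 3 = d ∧ dg (pc p) 4 = e
  hrep : ∀ i < nR, famB nr aut plk plg nQ (rep i) (repI i) = true
  hpat : ∀ i < nB, famB nr aut plk plg nQ (pat i) (patI i) = true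
  hnil : ∃ i < nR, repI i = []
  htr : ∀ i < nR, ∀ q < nQ, ∃ e, trB repI patI nR nB act (q :: repI i) e = true

section main

variable {nr : ℕ → ℕ} {aut : ℕ → List (List ℕ)} {rep pat : ℕ → List (ℕ × List ℕ)}
    {nR nB nQ : ℕ} {plk plg : ℕ → ℕ} {pc : ℕ → ℕ} {act : ℕ → ℕ → ℕ} {base : ℕ → ℕ}
    {repI patI : ℕ → List ℕ}

theorem Tab.exists_perm (H : Tab nr aut rep pat nR nB nQ plk plg pc act base repI patI) {p : ℕ}
    (hp : p < 120) : ∃ σ : Equiv.Perm (Fin 5), ∀ j : Fin 5, (σ j : ℕ) = dg (pc p) j := by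
  have hinj : Function.Injective (fn (pc p)) := by
    intro i j hij
    apply Fin.ext
    exact H.hperm p hp i i.2 j j.2 (by simpa [fn] using hij)
  refine ⟨Equiv.ofBijective _ (Finite.injective_iff_bijective.1 hinj), ?_⟩
  intro j
  rfl

theorem Tab.exists_idx (H : Tab nr aut rep pat nR nB nQ plk plg pc act base repI patI)
    (σ : Equiv.Perm (Fin 5)) : ∃ p < 120, ∀ j : Fin 5, (σ j : ℕ) = dg (pc p) j := by
  have hne : ∀ i j : Fin 5, i ≠ j → (σ i : ℕ) ≠ (σ j : ℕ) := by
    intro i j hij h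
    exact hij (σ.injective (Fin.ext h))
  obtain ⟨p, hp, h0, h1, h2, h3, h4⟩ := H.hsurj (σ 0) (σ 0).2 (σ 1) (σ 1).2 (σ 2) (σ 2).2
    (σ 3) (σ 3).2 (σ 4) (σ 4).2 (hne _ _ (by decide)) (hne _ _ (by decide)) (hne _ _ (by decide))
    (hne _ _ (by decide)) (hne _ _ (by decide)) (hne _ _ (by decide)) (hne _ _ (by decide))
    (hne _ _ (by decide)) (hne _ _ (by decide)) (hne _ _ (by decide))
  refine ⟨p, hp, ?_⟩
  intro j
  fin_cases j
  · exact h0.symm
  · exact h1.symm
  · exact h2.symm
  · exact h3.symm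
  · exact h4.symm

theorem getD_lt {α : Type*} {F : List α} {j : ℕ} {d x : α} (h : F.getD j d = x) (hx : x ≠ d) :
    j < F.length := by
  by_contra hc
  rw [List.getD_eq_default _ _ (not_lt.1 hc)] at h
  exact hx h.symm

theorem Tab.enum (H : Tab nr aut rep pat nR nB nQ plk plg pc act base repI patI)
    {W ι : Type*} [Nonempty ι] (φ : Fin 5 → W) (P : ℕ → (Fin 5 → W) → ι → Prop)
    (hloc : ∀ k ψ ψ' i, (∀ j : Fin 5, (j : ℕ) < nr k → ψ j = ψ' j) → P k ψ i → P k ψ' i)
    (haut : ∀ k < 7, ∀ a ∈ aut k, ∀ ψ i, P k ψ i → P k (ψ ∘ fnl a) i)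
    (l : List ι)
    (hbad : ∀ b < nB, ∀ (π : Equiv.Perm (Fin 5)) (pos : ℕ → ι),
      Set.InjOn pos (Set.Iio (pat b).length) → (∀ m < (pat b).length, pos m ∈ l) →
      (∀ m < (pat b).length, P ((pat b).getD m (0, [])).1
        (φ ∘ π ∘ fnl ((pat b).getD m (0, [])).2) (pos m)) → False)
    (hl : l.Nodup) (hP : ∀ i ∈ l, ∃ k < 7, ∃ g : Equiv.Perm (Fin 5), P k (φ ∘ g) i) :
    ∃ i0 < nR, ∃ (π : Equiv.Perm (Fin 5)) (pos : ℕ → ι),
      Set.InjOn pos (Set.Iio (rep i0).length) ∧
      (∀ x, x ∈ l ↔ ∃ m < (rep i0).length, pos m = x) ∧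
      ∀ m < (rep i0).length, P ((rep i0).getD m (0, [])).1
        (φ ∘ π ∘ fnl ((rep i0).getD m (0, [])).2) (pos m) := by
  classical
  -- the semantic content of a placement number
  set Q : (Fin 5 → W) → ℕ → ι → Prop := fun φ' q i => P (plk q) (φ' ∘ fn (plg q)) i with hQdef
  -- action
  have hactQ : ∀ (φ' : Fin 5 → W) (p q : ℕ), p < 120 → q < nQ → ∀ σ : Equiv.Perm (Fin 5),
      (∀ j : Fin 5, (σ j : ℕ) = dg (pc p) j) → ∀ i : ι,
      (Q (φ' ∘ σ) q i ↔ Q φ' (act p q) i) := by
    intro φ' p q hp hq σ hσ i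
    obtain ⟨h1, h2, h3⟩ := H.hact p hp q hq
    have h4 := sem_iff (nr := nr) (aut := aut) (P := P) hloc haut H.hinv (H.hk q hq)
      (g1 := σ ∘ fn (plg q)) (g2 := fn (plg (act p q)))
      (n1 := fun j => dg (pc p) (dg (plg q) j)) (n2 := dg (plg (act p q)))
      (fun j => by simp [fn, hσ]) (fun j => rfl) h3 φ' i
    simp only [hQdef]
    rw [h2, ← h4]
    rfl
  -- translation of families
  have htrans : ∀ (φ' : Fin 5 → W) (L : List (ℕ × List ℕ)) (L' : List ℕ),
      famB nr aut plk plg nQ L L' = true → ∀ (pos : ℕ → ι), ∀ m < L.length,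
        (P (L.getD m (0, [])).1 (φ' ∘ fnl (L.getD m (0, [])).2) (pos m) ↔
          Q φ' (L'.getD m 9999) (pos m)) := by
    intro φ' L L' hL pos m hm
    obtain ⟨h1, h2⟩ := famB_spec hL
    obtain ⟨h3, h4, h5⟩ := h2 m hm
    simp only [hQdef]
    rw [h4]
    refine sem_iff (nr := nr) (aut := aut) (P := P) hloc haut H.hinv
      (h4 ▸ H.hk _ h3) (fun j => rfl) (fun j => rfl) h5 φ' _
  -- the matching
  have hmat : ∀ (F T : List ℕ) (y p : ℕ), matB (act p) F T y = true → p < 120 →
      (∀ m < T.length, T.getD m 9999 < nQ) →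
      (∀ m < T.length, oct y m < F.length) ∧
      (∀ m < T.length, ∀ m' < T.length, oct y m = oct y m' → m = m') ∧
      ∀ (φ' : Fin 5 → W) (posF : ℕ → ι), (∀ j < F.length, Q φ' (F.getD j 9999) (posF j)) →
      ∀ σ : Equiv.Perm (Fin 5), (∀ j : Fin 5, (σ j : ℕ) = dg (pc p) j) →
      ∀ m < T.length, Q (φ' ∘ σ) (T.getD m 9999) (posF (oct y m)) := by
    intro F T y p hm hp hT
    simp only [matB, Bool.and_eq_true] at hm
    have h1 : ∀ m < T.length, F.getD (oct y m) 9999 = act p (T.getD m 9999) := by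
      intro m hmT
      have := allB_spec hm.1 m hmT
      exact beq_iff_eq.1 this
    have h2 : ∀ m < T.length, oct y m < F.length := by
      intro m hmT
      refine getD_lt (h1 m hmT) ?_
      have := (H.hact p hp _ (hT m hmT)).1
      have := H.hQ
      omega
    refine ⟨h2, fun m hm1 m' hm2 he => injB_spec hm.2 hm1 hm2 he, ?_⟩
    intro φ' posF hF σ hσ m hmT
    have h3 := hF _ (h2 m hmT)
    rw [h1 m hmT] at h3
    exact (hactQ φ' p _ hp (hT m hmT) σ hσ _).2 h3
  -- the main induction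
  have key : ∀ l' : List ι, l'.Nodup → (∀ x ∈ l', x ∈ l) → ∃ i0 < nR,
      ∃ (π : Equiv.Perm (Fin 5)) (pos : ℕ → ι),
      Set.InjOn pos (Set.Iio (repI i0).length) ∧
      (∀ x, x ∈ l' ↔ ∃ m < (repI i0).length, pos m = x) ∧
      ∀ m < (repI i0).length, Q (φ ∘ π) ((repI i0).getD m 9999) (pos m) := by
    intro l'
    induction l' with
    | nil =>
      intro _ _
      obtain ⟨i0, h0, h1⟩ := H.hnil
      obtain ⟨x0⟩ := ‹Nonempty ι›
      exact ⟨i0, h0, 1, fun _ => x0, by simp [h1], by simp [h1], by simp [h1]⟩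
    | cons x l' ih =>
      intro hnd hmem
      obtain ⟨i0, hi0, π, pos, hinj, hcov, hposQ⟩ := ih (List.nodup_cons.1 hnd).2
        (fun y hy => hmem y (List.mem_cons_of_mem _ hy))
      have hxl : x ∉ l' := (List.nodup_cons.1 hnd).1
      obtain ⟨k, hk, g, hg⟩ := hP x (hmem x List.mem_cons_self)
      obtain ⟨p0, hp0, hp0'⟩ := H.exists_idx (π⁻¹ * g)
      obtain ⟨hb1, hb2, hb3⟩ := H.hbase k hk
      have hq := (H.hact p0 hp0 _ hb1).1
      set q := act p0 (base k) with hqdef
      have hQx : Q (φ ∘ π) q x := by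
        rw [hqdef, ← hactQ (φ ∘ π) p0 (base k) hp0 hb1 (π⁻¹ * g) hp0' x]
        simp only [hQdef]
        rw [hb2]
        have e1 : (φ ∘ π) ∘ (π⁻¹ * g : Equiv.Perm (Fin 5)) ∘ fn (plg (base k)) = φ ∘ g := by
          funext j
          have : fn (plg (base k)) j = j := Fin.ext (hb3 j j.2)
          simp [this]
        have e2 : ((φ ∘ π) ∘ (π⁻¹ * g : Equiv.Perm (Fin 5))) ∘ fn (plg (base k)) = φ ∘ g := e1
        rw [e2]
        exact hg
      set F : List ℕ := q :: repI i0 with hFdef
      set posF : ℕ → ι := fun j => Nat.casesOn j x pos with hposF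
      have hF : ∀ j < F.length, Q (φ ∘ π) (F.getD j 9999) (posF j) := by
        intro j hj
        rcases j with _ | j
        · simpa [hFdef, hposF] using hQx
        · have := hposQ j (by simpa [hFdef] using hj)
          simpa [hFdef, hposF] using this
      have hFinj : ∀ j < F.length, ∀ j' < F.length, posF j = posF j' → j = j' := by
        intro j hj j' hj' he
        rcases j with _ | j <;> rcases j' with _ | j'
        · rfl
        · exfalso
          apply hxl
          rw [hcov]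
          exact ⟨j', by simpa [hFdef] using hj', he.symm⟩
        · exfalso
          apply hxl
          rw [hcov]
          exact ⟨j, by simpa [hFdef] using hj, he⟩
        · have := hinj (by simpa [hFdef] using hj) (by simpa [hFdef] using hj') he
          rw [this]
      have hFmem : ∀ j < F.length, posF j ∈ x :: l' := by
        intro j hj
        rcases j with _ | j
        · exact List.mem_cons_self
        · refine List.mem_cons_of_mem _ ?_
          rw [hcov]
          exact ⟨j, by simpa [hFdef] using hj, rfl⟩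
      obtain ⟨e, he⟩ := H.htr i0 hi0 q hq
      rw [← hFdef] at he
      simp only [trB, Bool.and_eq_true, decide_eq_true_eq] at he
      generalize (e >>> 1) % 1024 = t at he
      generalize (e >>> 11) % 128 = p at he
      generalize e >>> 18 = y at he
      obtain ⟨hp, he⟩ := he
      obtain ⟨σ, hσ⟩ := H.exists_perm hp
      by_cases hb : e % 2 = 1
      · exfalso
        rw [if_pos hb, Bool.and_eq_true, decide_eq_true_eq] at he
        obtain ⟨ht, hm⟩ := he
        obtain ⟨hlen, hspec⟩ := famB_spec (H.hpat _ ht)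
        obtain ⟨m1, m2, m3⟩ := hmat F _ _ _ hm hp (fun m hmT => (hspec m (by omega)).1)
        refine hbad _ ht (π * σ) (fun m => posF (oct y m)) ?_ ?_ ?_
        · intro a ha b hb' hab
          simp only [Set.mem_Iio] at ha hb'
          exact m2 a (by omega) b (by omega)
            (hFinj _ (m1 a (by omega)) _ (m1 b (by omega)) hab)
        · intro m hmT
          exact hmem _ (hFmem _ (m1 m (by omega)))
        · intro m hmT
          have h5 := m3 (φ ∘ π) posF hF σ hσ m (by omega)
          have h6 := htrans (φ ∘ π ∘ σ) _ _ (H.hpat _ ht)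
            (fun m => posF (oct y m)) m hmT
          exact h6.2 h5
      · rw [if_neg hb, Bool.and_eq_true, Bool.and_eq_true, decide_eq_true_eq, beq_iff_eq] at he
        obtain ⟨⟨ht, hlen⟩, hm⟩ := he
        obtain ⟨hlen2, hspec⟩ := famB_spec (H.hrep _ ht)
        obtain ⟨m1, m2, m3⟩ := hmat F _ _ _ hm hp (fun m hmT => (hspec m (by omega)).1)
        refine ⟨_, ht, π * σ, fun m => posF (oct y m), ?_, ?_, ?_⟩
        · intro a ha b hb' hab
          exact m2 a ha b hb' (hFinj _ (m1 a ha) _ (m1 b hb') hab)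
        · intro z
          constructor
          · intro hy
            have : ∃ j < F.length, posF j = z := by
              rcases List.mem_cons.1 hy with h7 | h7
              · exact ⟨0, by simp [hFdef], h7.symm⟩
              · obtain ⟨m, hm1, hm2⟩ := (hcov z).1 h7
                exact ⟨m + 1, by simpa [hFdef] using hm1, hm2⟩
            obtain ⟨j, hj, hjy⟩ := this
            have hsurj : Function.Surjective (fun m : Fin (repI t).length =>
                (⟨oct y m, by have := m1 m m.2; omega⟩ :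
                  Fin (repI t).length)) := by
              apply Finite.injective_iff_surjective.1
              intro a b hab
              exact Fin.ext (m2 a a.2 b b.2 (by simpa using hab))
            obtain ⟨m, hm'⟩ := hsurj ⟨j, by omega⟩
            refine ⟨m, m.2, ?_⟩
            have : oct y m = j := by simpa using hm'
            simp only [this]
            exact hjy
          · rintro ⟨m, hmT, rfl⟩
            exact hFmem _ (m1 m hmT)
        · intro m hmT
          exact m3 (φ ∘ π) posF hF σ hσ m hmT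
  obtain ⟨i0, hi0, π, pos, h1, h2, h3⟩ := key l hl (fun _ h => h)
  obtain ⟨hlen, -⟩ := famB_spec (H.hrep _ hi0)
  refine ⟨i0, hi0, π, pos, by rwa [hlen], by rwa [hlen], ?_⟩
  intro m hm
  exact (htrans (φ ∘ π) _ _ (H.hrep _ hi0) pos m hm).2 (h3 m (by omega))

end main

end Pool.Agent.TH751.T4
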