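import Pool.Agent.TH751.T4.Tab

/-! Kernel check of the action table. -/

namespace Pool.Agent.TH751.T4

set_option maxRecDepth 100000

/-- the check of the action -/
def actB (p : ℕ) : Bool := allB (fun q => decide (act p q < 220) && (plk (act p q) == plk q) &&
    eqvB (nr (plk q)) (aut (plk q)) (fun j => dg (pc p) (dg (plg q) j)) (dg (plg (act p q)))) 220

theorem t_act : allB (fun p => actB p) 120 = true := by decide +kernel

end Pool.Agent.TH751.T4
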