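import Pool.Agent.TH751.T4.Tr

/-! Kernel check of the transitions. -/

namespace Pool.Agent.TH751.T4

set_option maxRecDepth 100000

/-- the check of the transitions of a representative -/
def trOK (i T : ℕ) : Bool := allB (fun q => trB repI patI 116 286 act (q :: repI i)
  ((T >>> (36 * q)) % 68719476736)) 220

theorem t_tr : allB (fun i => trOK i (trL.getD i 0)) 116 = true := by decide +kernel

end Pool.Agent.TH751.T4
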