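import Pool.Agent.TH751.T4.EnumA
import Pool.Agent.TH751.T4.EnumB

/-! The enumeration theorem for the concrete tables. -/

namespace Pool.Agent.TH751.T4

set_option maxRecDepth 100000

theorem t_nr : ∀ k < 7, nr k ≤ 5 := by decide +kernel

theorem t_inv : ∀ k < 7, autB (nr k) (aut k) = true := by decide +kernel

theorem t_k : ∀ q < 220, plk q < 7 := by decide +kernel

theorem t_base : ∀ k < 7, base k < 220 ∧ plk (base k) = k ∧ ∀ j < 5, dg (plg (base k)) j = j := by
  decide +kernel

theorem t_perm : ∀ p < 120, ∀ i < 5, ∀ j < 5, dg (pc p) i = dg (pc p) j → i = j := by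
  decide +kernel

/-- search for a permutation -/
def findB (a b c d e : ℕ) : ℕ → Bool
  | 0 => false
  | n + 1 => (dg (pc n) 0 == a && dg (pc n) 1 == b && dg (pc n) 2 == c && dg (pc n) 3 == d &&
      dg (pc n) 4 == e) || findB a b c d e n

theorem findB_spec {a b c d e : ℕ} {n : ℕ} (h : findB a b c d e n = true) :
    ∃ p < n, dg (pc p) 0 = a ∧ dg (pc p) 1 = b ∧ dg (pc p) 2 = c ∧ dg (pc p) 3 = d ∧
      dg (pc p) 4 = e := by
  induction n with
  | zero => simp [findB] at h
  | succ n ih =>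
    simp only [findB, Bool.or_eq_true, Bool.and_eq_true, beq_iff_eq] at h
    rcases h with h | h
    · exact ⟨n, Nat.lt_succ_self n, h.1.1.1.1, h.1.1.1.2, h.1.1.2, h.1.2, h.2⟩
    · obtain ⟨p, hp, h'⟩ := ih h
      exact ⟨p, by omega, h'⟩

theorem t_surj0 : allB (fun a => allB (fun b => allB (fun c => allB (fun d => allB (fun e =>
    (a == b || a == c || a == d || a == e || b == c || b == d || b == e || c == d || c == e ||
      d == e) || findB a b c d e 120) 5) 5) 5) 5) 5 = true := by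
  decide +kernel

theorem t_rep : allB (fun i => famB nr aut plk plg 220 (rep i) (repI i)) 116 = true := by
  decide +kernel

theorem t_pat : allB (fun i => famB nr aut plk plg 220 (pat i) (patI i)) 286 = true := by
  decide +kernel

theorem tab : Tab nr aut rep pat 116 286 220 plk plg pc act base repI patI where
  hnr := t_nr
  hinv := t_inv
  hk := t_k
  hQ := by norm_num
  hact := by
    intro p hp q hq
    have := allB_spec (allB_spec t_act p hp) q hq
    simpa only [Bool.and_eq_true, decide_eq_true_eq, beq_iff_eq, and_assoc] using this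
  hbase := t_base
  hperm := t_perm
  hsurj := by
    intro a ha b hb c hc d hd e he h1 h2 h3 h4 h5 h6 h7 h8 h9 h10
    have h := allB_spec (allB_spec (allB_spec (allB_spec (allB_spec t_surj0 a ha) b hb) c hc)
      d hd) e he
    refine findB_spec ?_
    simpa [h1, h2, h3, h4, h5, h6, h7, h8, h9, h10] using h
  hrep := fun i hi => allB_spec t_rep i hi
  hpat := fun i hi => allB_spec t_pat i hi
  hnil := ⟨0, by norm_num, by decide +kernel⟩
  htr := by
    intro i hi q hq
    exact ⟨_, allB_spec (allB_spec t_tr i hi) q hq⟩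

/-- **Enumeration.** -/
theorem enum {W ι : Type*} [Nonempty ι] (φ : Fin 5 → W) (P : ℕ → (Fin 5 → W) → ι → Prop)
    (hloc : ∀ k ψ ψ' i, (∀ j : Fin 5, (j : ℕ) < nr k → ψ j = ψ' j) → P k ψ i → P k ψ' i)
    (haut : ∀ k < 7, ∀ a ∈ aut k, ∀ ψ i, P k ψ i → P k (ψ ∘ fnl a) i)
    (l : List ι)
    (hbad : ∀ b < 286, ∀ (π : Equiv.Perm (Fin 5)) (pos : ℕ → ι),
      Set.InjOn pos (Set.Iio (pat b).length) → (∀ m < (pat b).length, pos m ∈ l) →
      (∀ m < (pat b).length, P ((pat b).getD m (0, [])).1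
        (φ ∘ π ∘ fnl ((pat b).getD m (0, [])).2) (pos m)) → False)
    (hl : l.Nodup) (hP : ∀ i ∈ l, ∃ k < 7, ∃ g : Equiv.Perm (Fin 5), P k (φ ∘ g) i) :
    ∃ i0 < 116, ∃ (π : Equiv.Perm (Fin 5)) (pos : ℕ → ι),
      Set.InjOn pos (Set.Iio (rep i0).length) ∧
      (∀ x, x ∈ l ↔ ∃ m < (rep i0).length, pos m = x) ∧
      ∀ m < (rep i0).length, P ((rep i0).getD m (0, [])).1
        (φ ∘ π ∘ fnl ((rep i0).getD m (0, [])).2) (pos m) :=
  tab.enum φ P hloc haut l hbad hl hP

end Pool.Agent.TH751.T4
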